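import Pool.Agent.H363Z.UndecB

set_option autoImplicit false

open Pool.Agent.H363Z

/-- There is a fixed finite semigroup presentation `P` for which no computable function outputs
the rank of the abelianisation of `D(P, w)`, where the output `none` stands for infinite rank. -/
theorem Pool.Agent.Results.MP_a5725c_al.ARankUncomputable.result :
    ∃ (k : ℕ) (P : Pres (Fin k)), P.rel.Finite ∧ (∀ p ∈ P.rel, (p.2, p.1) ∉ P.rel) ∧
      ¬ ∃ r : List (Fin k) → Option ℕ, Computable r ∧ ∀ w : List (Fin k), w ≠ [] →
        Cardinal.toENat (Module.rank ℚ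
          (TensorProduct ℤ ℚ (Additive (Abelianization (DiagramGroup P w))))) =
          (r w).elim ⊤ (fun m => (m : ℕ∞)) :=
  Und.rank_undec
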